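import Mathlib

namespace Pool.Agent.H.MP_eff4ce_al

open List

/-- Thue-Morse sequence -/
def tm (n : ℕ) : Bool :=
  if _h : n = 0 then false else xor (decide (n % 2 = 1)) (tm (n / 2))
termination_by n
decreasing_by omega

lemma tm_even (n : ℕ) : tm (2 * n) = tm n := by
  rcases Nat.eq_zero_or_pos n with rfl | hn
  · rfl
  · rw [tm, dif_neg (by omega)]
    have h1 : 2 * n % 2 = 0 := by omega
    have h2 : 2 * n / 2 = n := by omega
    simp [h1, h2]

lemma tm_odd (n : ℕ) : tm (2 * n + 1) = !tm n := by
  rw [tm, dif_neg (by omega)]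
  have h1 : (2 * n + 1) % 2 = 1 := by omega
  have h2 : (2 * n + 1) / 2 = n := by omega
  simp [h1, h2]

lemma tm_succ_even (k : ℕ) (hk : k % 2 = 0) : tm (k + 1) = !tm k := by
  obtain ⟨q, rfl⟩ : ∃ q, k = 2 * q := ⟨k / 2, by omega⟩
  rw [tm_odd, tm_even]

lemma no_overlap (p : ℕ) : 0 < p → ∀ i, ¬ ∀ j ≤ p, tm (i + j) = tm (i + p + j) := by
  induction p using Nat.strong_induction_on with
  | _ p ih =>
    intro hp i h
    rcases Nat.even_or_odd' p with ⟨q, rfl | rfl⟩
    · apply ih q (by omega) (by omega) (i / 2)
      intro j hj
      have := h (2 * j) (by omega)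
      rcases Nat.even_or_odd' i with ⟨r, rfl | rfl⟩
      · rw [show 2 * r + 2 * j = 2 * (r + j) by ring,
          show 2 * r + 2 * q + 2 * j = 2 * (r + q + j) by ring, tm_even, tm_even] at this
        rwa [show 2 * r / 2 = r by omega]
      · rw [show 2 * r + 1 + 2 * j = 2 * (r + j) + 1 by ring,
          show 2 * r + 1 + 2 * q + 2 * j = 2 * (r + q + j) + 1 by ring, tm_odd, tm_odd] at this
        rw [show (2 * r + 1) / 2 = r by omega]
        simpa using this
    · have key : ∀ j < 2 * q + 1, tm (i + j + 1) = !tm (i + j) := by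
        intro j hj
        by_cases he : (i + j) % 2 = 0
        · exact tm_succ_even _ he
        · have h1 := h j (by omega)
          have h2 := h (j + 1) (by omega)
          have h3 := tm_succ_even (i + (2 * q + 1) + j) (by omega)
          rw [← add_assoc] at h2
          rw [h2, h1, ← h3, add_assoc (i + (2 * q + 1))]
      have key2 : ∀ j ≤ q, tm (i + 2 * j) = tm i := by
        intro j hj
        induction j with
        | zero => rfl
        | succ j ihj =>
          have h1 := key (2 * j) (by omega)
          have h2 := key (2 * j + 1) (by omega)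
          rw [show i + 2 * (j + 1) = i + (2 * j + 1) + 1 by ring, h2, ← add_assoc, h1, ihj (by omega)]
          simp
      have h1 := key (2 * q) (by omega)
      have h2 := h 0 (by omega)
      rw [key2 q le_rfl] at h1
      simp only [add_zero] at h2
      rw [← add_assoc, h1] at h2
      simp at h2

abbrev A := Bool × Bool

def w (k : ℕ) : A := (tm k, tm (k + 1))

def W (n : ℕ) : List A := (List.range n).map w

def SqF {X : Type} (s : List X) : Prop := ∀ a b c, s = a ++ b ++ b ++ c → b = []

lemma W_length (n : ℕ) : (W n).length = n := by simp [W]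

lemma W_get (n k : ℕ) (hk : k < n) : (W n)[k]? = some (w k) := by
  simp [W, hk]

lemma sqf_W (n : ℕ) : SqF (W n) := by
  intro a b c h
  by_contra hb
  have hp : 0 < b.length := List.length_pos_iff.mpr hb
  have hl : n = a.length + b.length + b.length + c.length := by
    have := congrArg List.length h
    simpa [W_length, add_assoc] using this
  have key : ∀ j < b.length, w (a.length + j) = w (a.length + b.length + j) := by
    intro j hj
    have h1 := W_get n (a.length + j) (by omega)
    have h2 := W_get n (a.length + b.length + j) (by omega)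
    rw [h] at h1 h2
    rw [List.getElem?_append_left (by simp; omega), List.getElem?_append_left (by simp; omega),
      List.getElem?_append_right (by omega)] at h1
    rw [List.getElem?_append_left (by simp; omega), List.getElem?_append_right (by simp)] at h2
    simp only [Nat.add_sub_cancel_left, List.length_append] at h1 h2
    rw [h1] at h2
    exact Option.some.inj h2
  apply no_overlap b.length hp a.length
  intro j hj
  rcases Nat.lt_or_ge j b.length with h1 | h1
  · exact congrArg Prod.fst (key j h1)
  · obtain ⟨j', rfl⟩ : ∃ j', j = j' + 1 := ⟨j - 1, by omega⟩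
    exact congrArg Prod.snd (key j' (by omega))

lemma SqF.sub {X : Type} {s t : List X} (h : SqF t) (hs : s <:+: t) : SqF s := by
  obtain ⟨x, y, rfl⟩ := hs
  intro a b c e
  apply h (x ++ a) b (c ++ y)
  simp [e]

lemma sqf_len {X : Type} {u v : List X} (hv : SqF v) (hu : u ≠ []) (hl : u.length ≤ v.length)
    (h1 : v <+: u ++ v) (h2 : v <:+ v ++ u) : u.length = v.length := by
  have h3 : u <+: v := List.prefix_of_prefix_length_le (List.prefix_append _ _) h1 hl
  have h4 : u <:+ v := List.suffix_of_suffix_length_le (List.suffix_append _ _) h2 hl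
  obtain ⟨v', rfl⟩ := h3
  rw [List.prefix_append_right_inj] at h1
  rcases Nat.lt_or_ge v'.length u.length with h5 | h5
  · have h6 : v' <+: u := List.prefix_of_prefix_length_le h1 (List.prefix_append _ _) h5.le
    obtain ⟨v'', h7⟩ := h4
    obtain ⟨r, rfl⟩ := h6
    have h8 : v''.length = v'.length := by
      have := congrArg List.length h7
      simp at this; omega
    have h9 : v'' = v' := by
      have := List.append_inj_left (h7.trans (List.append_assoc _ _ _)) h8
      exact this
    subst h9
    have := hv [] v'' r (by rw [← h7]; simp)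
    simp [this]
  · have h6 : u <+: v' := List.prefix_of_prefix_length_le (List.prefix_append _ _) h1 h5
    obtain ⟨r, rfl⟩ := h6
    exact absurd (hv [] u r (by simp)) hu

section pnorm
variable {X : Type} (ok : List X → Prop)

open Classical in
noncomputable def pstep (s : List X) (x : X) : List X := if ok s then s ++ [x] else s

noncomputable def pnorm (z : List X) : List X := z.foldl (pstep ok) []

variable {ok}

lemma fold_bad {s : List X} (h : ¬ ok s) (z : List X) : z.foldl (pstep ok) s = s := by
  induction z with
  | nil => rfl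
  | cons x z ih => simp [pstep, h, ih]

lemma fold_pre (s z : List X) : s <+: z.foldl (pstep ok) s ∧ z.foldl (pstep ok) s <+: s ++ z := by
  induction z generalizing s with
  | nil => simp
  | cons x z ih =>
    by_cases h : ok s
    · simp only [List.foldl_cons, pstep, h, if_true]
      refine ⟨(List.prefix_append _ _).trans (ih _).1, ?_⟩
      simpa using (ih (s ++ [x])).2
    · rw [fold_bad h]; simp

lemma pnorm_pre (z : List X) : pnorm ok z <+: z := by
  simpa [pnorm] using (fold_pre (ok := ok) [] z).2

lemma pnorm_snoc (z : List X) (x : X) : pnorm ok (z ++ [x]) = pstep ok (pnorm ok z) x := by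
  simp [pnorm]

variable (hF : ∀ x y, ok (x ++ y) → ok x ∧ ok y)
include hF

lemma pnorm_ok {z : List X} (h : ok z) : pnorm ok z = z := by
  induction z using List.reverseRecOn with
  | nil => rfl
  | append_singleton z x ih =>
    have := (hF _ _ h).1
    rw [pnorm_snoc, ih this, pstep, if_pos this]

lemma pnorm_eq_or (z : List X) : (ok z ∧ pnorm ok z = z) ∨ (¬ ok z ∧ ¬ ok (pnorm ok z)) := by
  by_cases h : ok z
  · exact Or.inl ⟨h, pnorm_ok hF h⟩
  · right
    refine ⟨h, ?_⟩
    induction z using List.reverseRecOn with
    | nil => exact h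
    | append_singleton z x ih =>
      by_cases h' : ok z
      · rw [pnorm_snoc, pnorm_ok hF h', pstep, if_pos h']; exact h
      · rw [pnorm_snoc, pstep, if_neg (ih h')]; exact ih h'

lemma pnorm_bad {z : List X} (h : ¬ ok z) (s : List X) : pnorm ok (z ++ s) = pnorm ok z := by
  rcases pnorm_eq_or hF z with h1 | h1
  · exact absurd h1.1 h
  · rw [pnorm, List.foldl_append]; exact fold_bad h1.2 s

lemma pnorm_right (z s : List X) : pnorm ok (z ++ pnorm ok s) = pnorm ok (z ++ s) := by
  rcases pnorm_eq_or hF s with h1 | h1
  · rw [h1.2]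
  · obtain ⟨r, hr⟩ := pnorm_pre (ok := ok) s
    conv_rhs => rw [← hr, ← List.append_assoc]
    exact (pnorm_bad hF (fun h => h1.2 (hF _ _ h).2) r).symm

lemma pnorm_key {u v : List X} (hv : ok v) (h : pnorm ok (u ++ v) = pnorm ok (v ++ u)) :
    v <+: u ++ v := by
  refine List.IsPrefix.trans ?_ (pnorm_pre (ok := ok) _)
  rw [h, pnorm, List.foldl_append]
  have := pnorm_ok hF hv
  rw [pnorm] at this
  rw [this]
  exact (fold_pre _ _).1

lemma pnorm_first {z : List X} {x : X} (hz : ok z) (h : ¬ ok (z ++ [x])) (s : List X) :
    pnorm ok (z ++ [x] ++ s) = z ++ [x] := by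
  rw [pnorm_bad hF h, pnorm_snoc, pnorm_ok hF hz, pstep, if_pos hz]

omit hF in
lemma pnorm_len {n : ℕ} (hn : ∀ z, ok z → z.length ≤ n) (z : List X) :
    (pnorm ok z).length ≤ n + 1 := by
  induction z using List.reverseRecOn with
  | nil => simp [pnorm]
  | append_singleton z x ih =>
    rw [pnorm_snoc, pstep]
    split_ifs with h
    · simpa using hn _ h
    · exact ih

end pnorm

lemma cycle_dvd {X : Type} (G : SimpleGraph X) {M : ℕ} (φ : X → ZMod M) (good : X → Prop)
    {a : X} (p : G.Walk a a) (hp : p.IsCycle) (h1 : ∀ s, good (p.getVert s))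
    (h2 : ∀ x y, good x → good y → G.Adj x y → φ y = φ x + 1 ∨ φ y = φ x - 1)
    (h3 : ∀ x y z, good x → good y → good z → G.Adj y x → G.Adj y z → φ x = φ z → x = z) :
    M ∣ p.length := by
  have h3l := hp.three_le_length
  have step : ∀ s < p.length, φ (p.getVert (s + 1)) = φ (p.getVert s) + 1 ∨
      φ (p.getVert (s + 1)) = φ (p.getVert s) - 1 :=
    fun s hs => h2 _ _ (h1 _) (h1 _) (p.adj_getVert_succ hs)
  have nb : ∀ s, s + 2 ≤ p.length → φ (p.getVert s) ≠ φ (p.getVert (s + 2)) := by
    intro s hs e
    have := h3 _ _ _ (h1 s) (h1 (s + 1)) (h1 (s + 2)) (p.adj_getVert_succ (by omega)).symm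
      (p.adj_getVert_succ (by omega)) e
    exact hp.getVert_sub_one_ne_getVert_add_one (i := s + 1) (by omega) (by simpa using this)
  have main : ∀ ε : ZMod M, (ε = 1 ∨ ε = -1) → φ (p.getVert 1) = φ (p.getVert 0) + ε →
      ∀ s < p.length, φ (p.getVert (s + 1)) = φ (p.getVert s) + ε ∧
        φ (p.getVert (s + 1)) = φ (p.getVert 0) + (s + 1 : ℕ) * ε := by
    intro ε hε h0 s
    induction s with
    | zero => intro _; simpa using h0
    | succ s ih =>
      intro hs
      obtain ⟨i1, i2⟩ := ih (by omega)
      have n1 := nb s (by omega)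
      have : φ (p.getVert (s + 1 + 1)) = φ (p.getVert (s + 1)) + ε := by
        rcases step (s + 1) hs with e | e <;> rcases hε with rfl | rfl
        · exact e
        · exact absurd (by rw [e, i1]; ring) n1
        · exact absurd (by rw [e, i1]; ring) n1
        · rw [e]; ring
      refine ⟨this, ?_⟩
      rw [this, i2]; push_cast; ring
  have fin : ∀ ε : ZMod M, (ε = 1 ∨ ε = -1) → φ (p.getVert 1) = φ (p.getVert 0) + ε →
      M ∣ p.length := by
    intro ε hε h0
    have := (main ε hε h0 (p.length - 1) (by omega)).2
    rw [show p.length - 1 + 1 = p.length by omega, p.getVert_length, p.getVert_zero] at this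
    rw [← ZMod.natCast_eq_zero_iff]
    rcases hε with rfl | rfl
    · linear_combination -this
    · linear_combination this
  rcases step 0 (by omega) with e | e
  · exact fin 1 (Or.inl rfl) e
  · exact fin (-1) (Or.inr rfl) (by rw [e]; ring)

lemma cycle_two {X : Type} (G : SimpleGraph X) {a : X} (p : G.Walk a a) (hp : p.IsCycle) (s : ℕ) :
    ∃ i j, p.getVert i ≠ p.getVert j ∧ G.Adj (p.getVert s) (p.getVert i) ∧
      G.Adj (p.getVert s) (p.getVert j) := by
  have h3l := hp.three_le_length
  by_cases hs : 0 < s ∧ s < p.length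
  · refine ⟨s - 1, s + 1, hp.getVert_sub_one_ne_getVert_add_one (by omega), ?_,
      p.adj_getVert_succ hs.2⟩
    have := p.adj_getVert_succ (i := s - 1) (by omega)
    rw [show s - 1 + 1 = s by omega] at this
    exact this.symm
  · have e : p.getVert s = a := by
      rcases Nat.eq_zero_or_pos s with rfl | h
      · simp
      · exact p.getVert_of_length_le (by omega)
    refine ⟨1, p.length - 1, hp.snd_ne_penultimate, ?_, ?_⟩
    · have := p.adj_getVert_succ (i := 0) (by omega)
      rw [e]; simpa using this
    · have := p.adj_getVert_succ (i := p.length - 1) (by omega)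
      rw [show p.length - 1 + 1 = p.length by omega, p.getVert_length] at this
      rw [e]; exact this.symm

end Pool.Agent.H.MP_eff4ce_al
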