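import Mathlib
import Pool.Agent.H.MP_eff4ce_al.A

namespace Pool.Agent.H.MP_eff4ce_al

open Sum

abbrev Γ := (A × Fin 3) ⊕ Fin 3
abbrev Z (N : ℕ) := ZMod (4 * N + 4)
def χ (N : ℕ) : Z N →+* ZMod 4 := ZMod.castHom ⟨N + 1, by ring⟩ (ZMod 4)
def hh {N : ℕ} (t : Z N) : Z N := if χ N t = 0 then 0 else if χ N t = 2 then 2 else 1
def valid (n : ℕ) (s : List A) : Prop := s <:+: W n
def okL (n : ℕ) (z : List Γ) : Prop :=
  ∃ u : List (A × Fin 3), z = u.map inl ∧ valid n (u.map Prod.fst)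
def okR (n : ℕ) (s : List A) : Prop := valid n s.reverse
def Aff {N : ℕ} (σ b : Z N) : Prop := (σ = 1 ∨ σ = -1) ∧ χ N b = 0

lemma valid_nil {n : ℕ} : valid n [] := ⟨[], W n, by simp⟩

lemma valid_F {n : ℕ} (x y : List A) (h : valid n (x ++ y)) : valid n x ∧ valid n y :=
  ⟨(List.prefix_append _ _).isInfix.trans h, (List.suffix_append _ _).isInfix.trans h⟩

lemma valid_len {n : ℕ} (x : List A) (h : valid n x) : x.length ≤ n := by
  simpa [W_length] using h.length_le

lemma okR_F {n : ℕ} (x y : List A) (h : okR n (x ++ y)) : okR n x ∧ okR n y := by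
  rw [okR, List.reverse_append] at h
  exact (valid_F _ _ h).symm

lemma okR_len {n : ℕ} (x : List A) (h : okR n x) : x.length ≤ n := by
  simpa using valid_len _ h

lemma okL_F {n : ℕ} (x y : List Γ) (h : okL n (x ++ y)) : okL n x ∧ okL n y := by
  obtain ⟨u, h1, h2⟩ := h
  obtain ⟨a, b, rfl, rfl, rfl⟩ := List.map_eq_append_iff.mp h1.symm
  rw [List.map_append] at h2
  exact ⟨⟨a, rfl, (valid_F _ _ h2).1⟩, ⟨b, rfl, (valid_F _ _ h2).2⟩⟩

lemma okL_len {n : ℕ} (x : List Γ) (h : okL n x) : x.length ≤ n := by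
  obtain ⟨u, rfl, h2⟩ := h
  simpa using valid_len _ h2

lemma okL_iff {n : ℕ} (u : List (A × Fin 3)) : okL n (u.map inl) ↔ valid n (u.map Prod.fst) := by
  refine ⟨?_, fun h => ⟨u, rfl, h⟩⟩
  rintro ⟨v, h1, h2⟩
  rwa [List.map_injective_iff.mpr inl_injective h1]

lemma not_okL {n : ℕ} (z : List Γ) (c : Fin 3) : ¬ okL n (z ++ [inr c]) := by
  intro h
  obtain ⟨u, h1, -⟩ := (okL_F _ _ h).2
  cases u <;> simp at h1

lemma χ4 (N : ℕ) : χ N 4 = 0 := by rw [map_ofNat]; decide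
lemma χ2 (N : ℕ) : χ N 2 = 2 := by rw [map_ofNat]

lemma hh_aff {N : ℕ} {σ b : Z N} (h : Aff σ b) (t : Z N) : hh (σ * t + b) = hh t := by
  obtain ⟨rfl | rfl, h2⟩ := h
  · simp [hh, h2]
  · have e1 : ∀ x : ZMod 4, -x = 0 ↔ x = 0 := by decide
    have e2 : ∀ x : ZMod 4, -x = 2 ↔ x = 2 := by decide
    simp [hh, h2, e2]

lemma hh_0 {N : ℕ} : hh (0 : Z N) = 0 := by simp [hh]
lemma hh_1 {N : ℕ} : hh (1 : Z N) = 1 := by
  rw [hh, map_one, if_neg (by decide), if_neg (by decide)]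
lemma hh_2 {N : ℕ} : hh (2 : Z N) = 2 := by
  rw [hh, χ2, if_neg (by decide), if_pos rfl]
lemma hh_cases {N : ℕ} (t : Z N) : hh t = 0 ∨ hh t = 1 ∨ hh t = 2 := by
  unfold hh; split_ifs <;> simp

lemma Aff.comp {N : ℕ} {σ b σ' b' : Z N} (h : Aff σ b) (h' : Aff σ' b') :
    Aff (σ' * σ) (σ' * b + b') := by
  refine ⟨?_, by simp [h.2, h'.2]⟩
  rcases h.1 with rfl | rfl <;> rcases h'.1 with rfl | rfl <;> simp

lemma Aff.one {N : ℕ} : Aff (1 : Z N) 0 := ⟨Or.inl rfl, map_zero _⟩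

lemma Aff.eq {N : ℕ} {σ b σ' b' : Z N} (h : Aff σ b) (h' : Aff σ' b') (e : σ + b = σ' + b') :
    σ = σ' ∧ b = b' := by
  have e1 := congrArg (χ N) e
  simp only [map_add, h.2, h'.2, add_zero] at e1
  have : σ = σ' := by
    rcases h.1 with rfl | rfl <;> rcases h'.1 with rfl | rfl
    · rfl
    · simp only [map_one, map_neg] at e1; exact absurd e1 (by decide)
    · simp only [map_one, map_neg] at e1; exact absurd e1 (by decide)
    · rfl
  subst this
  exact ⟨rfl, add_left_cancel e⟩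

abbrev Λ (n : ℕ) := {l : List Γ // l.length ≤ n + 1}
abbrev Ω (n N : ℕ) := {l : List A // l.length ≤ n + 1} ⊕ (Fin (n + 1) × Z N)

instance (n : ℕ) : Finite (Λ n) := (List.finite_length_le Γ (n + 1)).to_subtype
instance (n : ℕ) : Finite {l : List A // l.length ≤ n + 1} :=
  (List.finite_length_le A (n + 1)).to_subtype

variable {n N : ℕ}

noncomputable def L (n : ℕ) (z : List Γ) (s : Λ n) : Λ n :=
  ⟨pnorm (okL n) (z ++ s.1), pnorm_len okL_len _⟩

noncomputable def gen (s : List A) : Ω n N := inl ⟨pnorm (okR n) s, pnorm_len okR_len _⟩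

def mem : Ω n N → List A
  | inl s => s.1
  | inr p => ((W n).take p.1).reverse

def step (m : Fin 3) (t : Z N) : Z N := if m = 0 then t else if m = 1 then t + 4 else -t

def hΩ : Ω n N → Z N
  | inl _ => 1
  | inr p => hh p.2

noncomputable def rl (ω : Ω n N) : Γ → Ω n N
  | inl x => match ω with
    | inl s => gen (x.1 :: s.1)
    | inr p => if hi : p.1.val < n ∧ w p.1 = x.1 then inr (⟨p.1 + 1, by omega⟩, step x.2 p.2)
        else gen (x.1 :: mem (inr p : Ω n N))
  | inr c => inr (0, if c = 1 then hΩ ω else if c = 0 then 0 else 2)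

noncomputable def R (z : List Γ) (ω : Ω n N) : Ω n N := z.foldl rl ω

lemma L_append (z z' : List Γ) (s : Λ n) : L n (z ++ z') s = L n z (L n z' s) := by
  apply Subtype.ext
  simp only [L]
  rw [pnorm_right okL_F, List.append_assoc]

lemma R_append (z z' : List Γ) (ω : Ω n N) : R (z ++ z') ω = R z' (R z ω) := by
  simp [R]

lemma R_snoc (z : List Γ) (x : Γ) (ω : Ω n N) : R (z ++ [x]) ω = rl (R z ω) x := by
  simp [R]

lemma step_aff (m : Fin 3) : ∃ σ b : Z N, Aff σ b ∧ ∀ t, step m t = σ * t + b := by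
  unfold step
  split_ifs
  · exact ⟨1, 0, Aff.one, by simp⟩
  · exact ⟨1, 4, ⟨Or.inl rfl, χ4 N⟩, by simp⟩
  · exact ⟨-1, 0, ⟨Or.inr rfl, map_zero _⟩, by simp⟩

lemma W_take (i : ℕ) (hi : i < n) : (W n).take (i + 1) = (W n).take i ++ [w i] := by
  rw [List.take_add_one, W_get n i hi]; rfl

lemma rl_track (i : Fin (n + 1)) (x : A × Fin 3) :
    (∀ t : Z N, rl (inr (i, t)) (inl x) = gen (x.1 :: ((W n).take i).reverse)) ∨
    ∃ (i' : Fin (n + 1)) (σ b : Z N), Aff σ b ∧ (W n).take i' = (W n).take i ++ [x.1] ∧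
      ∀ t : Z N, rl (inr (i, t)) (inl x) = inr (i', σ * t + b) := by
  by_cases hi : i.val < n ∧ w i = x.1
  · right
    obtain ⟨σ, b, h1, h2⟩ := step_aff (N := N) x.2
    refine ⟨⟨i + 1, by omega⟩, σ, b, h1, by rw [← hi.2]; exact W_take _ hi.1, fun t => ?_⟩
    simp only [rl]
    rw [dif_pos hi, h2]
  · left
    intro t
    simp only [rl]
    rw [dif_neg hi]; rfl

lemma R_inl (u : List (A × Fin 3)) (ω : Ω n N) :
    (∃ s, R (u.map inl) ω = inl s ∧
      (∀ y, pnorm (okR n) (y ++ s.1) = pnorm (okR n) (y ++ ((u.map Prod.fst).reverse ++ mem ω))) ∧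
      (u ≠ [] → R (u.map inl) ω = gen ((u.map Prod.fst).reverse ++ mem ω))) ∨
    ∃ (i i' : Fin (n + 1)) (t σ b : Z N), ω = inr (i, t) ∧ Aff σ b ∧
      R (u.map inl) ω = inr (i', σ * t + b) ∧ (W n).take i' = (W n).take i ++ u.map Prod.fst := by
  induction u using List.reverseRecOn with
  | nil =>
    rcases ω with s | ⟨i, t⟩
    · exact Or.inl ⟨s, rfl, by simp [mem], by simp⟩
    · exact Or.inr ⟨i, i, t, 1, 0, rfl, Aff.one, by simp [R], by simp⟩
  | append_singleton u x ih =>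
    have key : R ((u ++ [x]).map inl) ω = gen (((u ++ [x]).map Prod.fst).reverse ++ mem ω) →
        ∃ s, R ((u ++ [x]).map inl) ω = inl s ∧
        (∀ y, pnorm (okR n) (y ++ s.1) =
          pnorm (okR n) (y ++ (((u ++ [x]).map Prod.fst).reverse ++ mem ω))) ∧
        (u ++ [x] ≠ [] → R ((u ++ [x]).map inl) ω =
          gen (((u ++ [x]).map Prod.fst).reverse ++ mem ω)) :=
      fun h => ⟨_, h, fun y => pnorm_right okR_F _ _, fun _ => h⟩
    have e : R ((u ++ [x]).map inl) ω = rl (R (u.map inl) ω) (inl x) := by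
      rw [List.map_append]; exact R_snoc _ _ _
    rcases ih with ⟨s, h1, h2, -⟩ | ⟨i, i', t, σ, b, rfl, h1, h2, h3⟩
    · left
      apply key
      rw [e, h1]
      simp only [rl, gen]
      congr 2
      simpa using h2 [x.1]
    · rcases rl_track (N := N) i' x with h | ⟨i'', σ', b', h4, h5, h6⟩
      · left
        apply key
        rw [e, h2, h, h3]
        simp [mem]
      · right
        refine ⟨i, i'', t, σ' * σ, σ' * b + b', rfl, h1.comp h4, ?_, by simp [h5, h3]⟩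
        rw [e, h2, h6]
        congr 2; ring

noncomputable def H (u : List (A × Fin 3)) (ω : Ω n N) : Z N := hΩ (R (u.map inl) ω)

lemma H_inl (u : List (A × Fin 3)) (s) : H u (inl s : Ω n N) = 1 := by
  rcases R_inl u (inl s : Ω n N) with ⟨s', h1, -⟩ | ⟨i, i', t, σ, b, h, -⟩
  · rw [H, h1]; rfl
  · cases h

lemma H_inr (u : List (A × Fin 3)) (i t) : H u (inr (i, t) : Ω n N) = 1 ∨
    H u (inr (i, t) : Ω n N) = hh t := by
  rcases R_inl u (inr (i, t) : Ω n N) with ⟨s', h1, -⟩ | ⟨i, i', t, σ, b, h, h1, h2, -⟩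
  · left; rw [H, h1]; rfl
  · right; cases h; rw [H, h2]; exact hh_aff h1 _

lemma H_cases (u : List (A × Fin 3)) (ω : Ω n N) : H u ω = 0 ∨ H u ω = 1 ∨ H u ω = 2 := by
  unfold H
  rcases R (u.map inl) ω with s | p
  · exact Or.inr (Or.inl rfl)
  · exact hh_cases _

lemma hh_H (u : List (A × Fin 3)) (ω : Ω n N) : hh (H u ω) = H u ω := by
  rcases H_cases u ω with h | h | h <;> rw [h]
  exacts [hh_0, hh_1, hh_2]

lemma R_invalid {u : List (A × Fin 3)} (hu : ¬ valid n (u.map Prod.fst)) (ω : Ω n N) :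
    R (u.map inl) ω = gen (u.map Prod.fst).reverse := by
  rcases R_inl u ω with ⟨s', -, -, h1⟩ | ⟨i, i', t, σ, b, -, -, -, h⟩
  · rw [h1 (by rintro rfl; exact hu valid_nil)]
    simp only [gen]
    congr 2
    exact pnorm_bad okR_F (by simpa [okR] using hu) _
  · exact absurd (((List.suffix_append _ _).isInfix).trans
      (h ▸ (List.take_prefix _ _).isInfix)) hu

def ω0 : Ω n N := inl ⟨[], by simp⟩
def l0 : Λ n := ⟨[], by simp⟩

lemma R_ω0 {u : List (A × Fin 3)} (hu : u ≠ []) :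
    R (u.map inl) (ω0 : Ω n N) = gen (u.map Prod.fst).reverse := by
  rcases R_inl u (ω0 : Ω n N) with ⟨s', -, -, h1⟩ | ⟨i, i', t, σ, b, h, -⟩
  · simpa [ω0, mem] using h1 hu
  · cases h

def IsV (n : ℕ) (z : List Γ) : Prop := okL n z
def IsK (n N : ℕ) (z : List Γ) : Prop :=
  ∃ (l : Λ n) (ω : Ω n N), (∀ s, L n z s = l) ∧ ∀ ω', R z ω' = ω
def IsJ (n N : ℕ) (z : List Γ) : Prop :=
  ∃ (u : List (A × Fin 3)) (i : Fin (n + 1)) (σ b : Z N), Aff σ b ∧
    (∀ s, (L n z s).1 = u.map inl ++ [inr 1]) ∧ ∀ ω : Ω n N, R z ω = inr (i, σ * H u ω + b)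

lemma L_bad {z : List Γ} (hz : ¬ okL n z) (s : Λ n) : L n z s = L n z l0 := by
  apply Subtype.ext
  simp only [L]
  rw [pnorm_bad okL_F hz, pnorm_bad okL_F hz]

lemma isK_invalid {u : List (A × Fin 3)} (hu : ¬ valid n (u.map Prod.fst)) :
    IsK n N (u.map inl) :=
  ⟨_, _, L_bad (mt (okL_iff u).mp hu), R_invalid hu⟩

lemma classify (z : List Γ) : IsV n z ∨ IsK n N z ∨ IsJ n N z := by
  induction z using List.reverseRecOn with
  | nil => exact Or.inl ⟨[], rfl, valid_nil⟩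
  | append_singleton z x ih =>
    rcases ih with ⟨u, rfl, hu⟩ | ⟨l, ω, h1, h2⟩ | ⟨u, i, σ, b, h0, h1, h2⟩
    · rcases x with x | c
      · have e : u.map (inl : _ → Γ) ++ [inl x] = (u ++ [x]).map inl := by simp
        rw [e]
        by_cases hv : valid n ((u ++ [x]).map Prod.fst)
        · exact Or.inl ⟨_, rfl, hv⟩
        · exact Or.inr (Or.inl (isK_invalid hv))
      · right
        by_cases hc : c = 1
        · subst hc
          right
          refine ⟨u, 0, 1, 0, Aff.one, fun s => pnorm_first okL_F ⟨u, rfl, hu⟩ (not_okL _ _) _,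
            fun ω => ?_⟩
          rw [R_snoc]; simp [rl, H]
        · left
          refine ⟨_, inr (0, if c = 0 then 0 else 2), L_bad (not_okL _ _), fun ω => ?_⟩
          rw [R_snoc]; simp [rl, hc]
    · exact Or.inr (Or.inl ⟨l, rl ω x, fun s => by rw [L_append, h1], fun ω' => by rw [R_snoc, h2]⟩)
    · right
      have hL : ∀ s, (L n (z ++ [x]) s).1 = u.map inl ++ [inr 1] := fun s => by rw [L_append, h1]
      have hL' : ∀ s, L n (z ++ [x]) s = L n (z ++ [x]) l0 :=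
        fun s => Subtype.ext (by rw [hL, hL])
      rcases x with x | c
      · rcases rl_track (N := N) i x with h | ⟨i', σ', b', h4, -, h6⟩
        · exact Or.inl ⟨_, _, hL', fun ω => by rw [R_snoc, h2, h]⟩
        · refine Or.inr ⟨u, i', σ' * σ, σ' * b + b', h0.comp h4, hL, fun ω => ?_⟩
          rw [R_snoc, h2, h6]
          congr 2; ring
      · by_cases hc : c = 1
        · subst hc
          refine Or.inr ⟨u, 0, 1, 0, Aff.one, hL, fun ω => ?_⟩
          rw [R_snoc, h2]; simp [rl, hΩ, hh_aff h0, hh_H]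
        · refine Or.inl ⟨_, inr (0, if c = 0 then 0 else 2), hL', fun ω => ?_⟩
          rw [R_snoc]; simp [rl, hc]

/-- equality in the semigroup -/
def Eqv (n N : ℕ) (z z' : List Γ) : Prop :=
  (∀ s, L n z s = L n z' s) ∧ ∀ ω : Ω n N, R z ω = R z' ω

def Com (n N : ℕ) (z z' : List Γ) : Prop := Eqv n N (z ++ z') (z' ++ z)

lemma Com.symm {z z'} (h : Com n N z z') : Com n N z' z :=
  ⟨fun s => (h.1 s).symm, fun s => (h.2 s).symm⟩

lemma VV {z z'} (hz : z ≠ []) (hz' : z' ≠ []) (h1 : IsV n z) (h2 : IsV n z') (h : Com n N z z') :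
    z = z' := by
  wlog hl : z.length ≤ z'.length generalizing z z'
  · exact (this hz' hz h2 h1 h.symm (by omega)).symm
  have e1 : z' <+: z ++ z' := pnorm_key okL_F h2 (by simpa [L, l0] using h.1 l0)
  obtain ⟨u, rfl, hu⟩ := h1
  obtain ⟨v, rfl, hv⟩ := h2
  have e2 := h.2 ω0
  rw [← List.map_append, ← List.map_append, R_ω0 (by simp_all), R_ω0 (by simp_all)] at e2
  simp only [gen, inl.injEq, Subtype.mk.injEq, List.map_append, List.reverse_append] at e2
  have e3 := pnorm_key okR_F (by simpa [okR] using hv) e2.symm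
  rw [← List.reverse_append, List.reverse_prefix] at e3
  rw [← List.map_append, List.prefix_map_iff_of_injective inl_injective] at e1
  have e4 := e1.map Prod.fst
  rw [List.map_append] at e4
  have e5 := sqf_len ((sqf_W n).sub hv) (by simpa using hz) (by simpa using hl) e4 e3
  have e6 : u <+: v := List.prefix_of_prefix_length_le (List.prefix_append _ _) e1 (by simpa using hl)
  rw [e6.eq_of_length (by simpa using e5)]

lemma VJ {z z'} (hz : z ≠ []) (h1 : IsV n z) (h2 : IsJ n N z') : ¬ Com n N z z' := by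
  intro h
  obtain ⟨u, rfl, hu⟩ := h1
  obtain ⟨v, i, σ, b, -, h1, -⟩ := h2
  have e := congrArg Subtype.val (h.1 l0)
  rw [L_append, L_append, h1, L] at e
  simp only [h1] at e
  rw [← List.append_assoc, ← List.map_append] at e
  by_cases hv : okL n ((u ++ v).map inl)
  · have := pnorm_first okL_F hv (not_okL _ 1) []
    rw [List.append_nil, e] at this
    have := congrArg List.length this
    simp at this hz
    exact hz this
  · rw [pnorm_bad okL_F hv] at e
    have := (pnorm_pre (ok := okL n) ((u ++ v).map inl)).subset (a := inr 1) (by rw [e]; simp)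
    simp at this

lemma VK {z z'} (hz : z ≠ []) (h1 : IsV n z) (h2 : IsK n N z') (h : Com n N z z') :
    Eqv n N z' (z ++ z) := by
  obtain ⟨u, rfl, hu⟩ := h1
  obtain ⟨l, ω, h1, h2⟩ := h2
  have hv : ¬ valid n ((u ++ u).map Prod.fst) := fun hv =>
    hz (by simpa using (sqf_W n).sub hv [] (u.map Prod.fst) [] (by simp))
  obtain ⟨l', ω', h3, h4⟩ := isK_invalid (N := N) hv
  rw [List.map_append] at h3 h4
  have e1 := h.1 l0
  have e2 := h.2 ω0
  rw [L_append, L_append, h1, h1] at e1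
  rw [R_append, R_append, h2, h2] at e2
  refine ⟨fun s => ?_, fun s => ?_⟩
  · rw [h1, h3, ← h3 l, L_append, e1, e1]
  · rw [h2, h4, ← h4 ω, R_append, ← e2, ← e2]

lemma KK {z z'} (h1 : IsK n N z) (h2 : IsK n N z') (h : Com n N z z') : Eqv n N z z' := by
  obtain ⟨l, ω, h1, h3⟩ := h1
  obtain ⟨l', ω', h2, h4⟩ := h2
  have e1 := h.1 l0
  have e2 := h.2 ω0
  rw [L_append, L_append, h1, h2] at e1
  rw [R_append, R_append, h4 (R z ω0), h3 (R z' ω0)] at e2
  exact ⟨fun s => by rw [h1, h2, e1], fun s => by rw [h3, h4, e2]⟩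

lemma snoc_inj {u v : List (A × Fin 3)}
    (h : u.map (inl : _ → Γ) ++ [inr 1] = v.map inl ++ [inr 1]) : u = v :=
  List.map_injective_iff.mpr inl_injective (List.append_cancel_right h)

lemma H_odd (u : List (A × Fin 3)) (i : Fin (n + 1)) {σ b : Z N} (h : Aff σ b) :
    H u (inr (i, σ * 1 + b) : Ω n N) = 1 := by
  rcases H_inr u i (σ * 1 + b) with e | e
  · exact e
  · rw [e, hh_aff h, hh_1]

lemma JJ' {z z'} (h1 : IsJ n N z) (h2 : IsJ n N z') (e1 : L n z l0 = L n z' l0)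
    (e2 : R z (ω0 : Ω n N) = R z' ω0) : Eqv n N z z' := by
  obtain ⟨u, i, σ, b, h0, h1, h3⟩ := h1
  obtain ⟨u', i', σ', b', h0', h2, h4⟩ := h2
  have := snoc_inj ((h1 _).symm.trans ((congrArg Subtype.val e1).trans (h2 _)))
  subst this
  rw [h3, h4, ω0, H_inl] at e2
  simp only [inr.injEq, Prod.mk.injEq, mul_one] at e2
  obtain ⟨rfl, rfl⟩ := h0.eq h0' e2.2
  exact ⟨fun s => Subtype.ext (by rw [h1, h2]), fun s => by rw [h3, h4, e2.1]⟩

lemma JJ {z z'} (h1 : IsJ n N z) (h2 : IsJ n N z') (h : Com n N z z') : Eqv n N z z' := by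
  apply JJ' h1 h2
  all_goals
    obtain ⟨u, i, σ, b, h0, h1, h3⟩ := h1
    obtain ⟨u', i', σ', b', h0', h2, h4⟩ := h2
  · have e1 := congrArg Subtype.val (h.1 l0)
    rw [L_append, L_append, h1, h2] at e1
    exact Subtype.ext (by rw [h1, h2, e1])
  · have e2 := h.2 ω0
    rw [R_append, R_append, h3, h4, h3, h4, ω0, H_inl, H_inl, H_odd _ _ h0, H_odd _ _ h0'] at e2
    rw [h3, h4, ω0, H_inl, H_inl, e2]

def pos : Ω n N → Z N
  | inl _ => 0
  | inr p => p.2

def lev : Ω n N → Fin (n + 1)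
  | inl _ => 0
  | inr p => p.1

lemma JK {z z'} (h1 : IsJ n N z) (h2 : IsK n N z') (h : Com n N z z') :
    L n z l0 = L n z' l0 ∧ ∃ i a t, R z (ω0 : Ω n N) = inr (i, a) ∧ R z' (ω0 : Ω n N) = inr (i, t) ∧
      (χ N a = 1 ∨ χ N a = -1) ∧ (t = a ∨ t = a + 1 ∨ t = a - 1) := by
  obtain ⟨u, i, σ, b, h0, h1, h3⟩ := h1
  obtain ⟨l, ω, h2, h4⟩ := h2
  have e1 := congrArg Subtype.val (h.1 l0)
  have e2 := h.2 ω0
  rw [L_append, L_append, h1, h2] at e1
  rw [R_append, R_append, h4, h4, h3] at e2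
  refine ⟨Subtype.ext (by rw [h1, h2, e1]), i, σ + b, σ * H u ω + b, ?_, by rw [h4, ← e2], ?_, ?_⟩
  · rw [h3, ω0, H_inl, mul_one]
  · rcases h0 with ⟨rfl | rfl, h0⟩ <;> simp [h0]
  · rcases h0.1 with rfl | rfl <;> rcases H_cases u ω with e | e | e <;> rw [e]
    · right; right; ring
    · left; ring
    · right; left; ring
    · right; left; ring
    · left; ring
    · right; right; ring

end Pool.Agent.H.MP_eff4ce_al
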