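import Mathlib
import Pool.Agent.H.MP_eff4ce_al.B

namespace Pool.Agent.H.MP_eff4ce_al

open Sum

variable {n N : ℕ}

def S (n N : ℕ) : Type :=
  {e : (Λ n → Λ n) × (Ω n N → Ω n N) // ∃ z : List Γ, z ≠ [] ∧ e = (L n z, R z)}

instance : Finite (S n N) := by unfold S; infer_instance

noncomputable def mk (z : List Γ) (hz : z ≠ []) : S n N := ⟨(L n z, R z), z, hz, rfl⟩

instance : Mul (S n N) where
  mul x y := ⟨(x.1.1 ∘ y.1.1, y.1.2 ∘ x.1.2), by
    obtain ⟨z, hz, e⟩ := x.2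
    obtain ⟨z', -, e'⟩ := y.2
    refine ⟨z ++ z', by simp [hz], ?_⟩
    rw [e, e']
    exact Prod.ext (funext fun s => (L_append _ _ _).symm) (funext fun s => (R_append _ _ _).symm)⟩

instance : Semigroup (S n N) where
  mul_assoc _ _ _ := rfl

lemma mk_mul (z z' : List Γ) (hz hz') :
    (mk z hz : S n N) * mk z' hz' = mk (z ++ z') (by simp [hz]) :=
  Subtype.ext (Prod.ext (funext fun s => (L_append _ _ _).symm)
    (funext fun s => (R_append _ _ _).symm))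

lemma mk_surj (x : S n N) : ∃ z hz, x = mk z hz := by
  obtain ⟨e, z, hz, rfl⟩ := x
  exact ⟨z, hz, rfl⟩

lemma mk_eq {z z' : List Γ} {hz hz'} : (mk z hz : S n N) = mk z' hz' ↔ Eqv n N z z' := by
  constructor
  · intro h
    have := congrArg Subtype.val h
    simp only [mk, Prod.mk.injEq] at this
    exact ⟨congrFun this.1, congrFun this.2⟩
  · intro h
    exact Subtype.ext (Prod.ext (funext h.1) (funext h.2))

lemma mk_com {z z' : List Γ} {hz hz'} :
    (mk z hz : S n N) * mk z' hz' = mk z' hz' * mk z hz ↔ Com n N z z' := by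
  rw [mk_mul, mk_mul, mk_eq, Com]

open Classical in
noncomputable def gens (n N : ℕ) : Finset (S n N) :=
  Finset.univ.image fun x : Γ => mk [x] (by simp)

lemma gens_card : (gens n N).card ≤ 15 := by
  classical
  unfold gens
  refine Finset.card_image_le.trans ?_
  simp

lemma gens_closure : Subsemigroup.closure (gens n N : Set (S n N)) = ⊤ := by
  rw [eq_top_iff]
  rintro x -
  obtain ⟨z, hz, rfl⟩ := mk_surj x
  have h1 : ∀ x : Γ, (mk [x] (by simp) : S n N) ∈ Subsemigroup.closure (gens n N : Set (S n N)) :=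
    fun x => Subsemigroup.subset_closure (by simp [gens])
  induction z with
  | nil => exact absurd rfl hz
  | cons x z ih =>
    by_cases h : z = []
    · subst h; exact h1 x
    · have := Subsemigroup.mul_mem _ (h1 x) (ih h)
      rwa [mk_mul] at this

def cg (T : Type) [Semigroup T] : SimpleGraph {x : T // ¬ ∀ y, x * y = y * x} where
  Adj x y := x ≠ y ∧ x.1 * y.1 = y.1 * x.1
  symm := ⟨fun _ _ h => ⟨h.1.symm, h.2.symm⟩⟩
  loopless := ⟨fun _ h => h.1 rfl⟩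

def φ (x : S n N) : Z N := pos (x.1.2 ω0)

def TV (x : S n N) : Prop := ∃ z hz, x = mk z hz ∧ IsV n z
def TK (x : S n N) : Prop := ∃ z hz, x = mk z hz ∧ IsK n N z
def TJ (x : S n N) : Prop := ∃ z hz, x = mk z hz ∧ IsJ n N z

lemma tri (x : S n N) : TV x ∨ TK x ∨ TJ x := by
  obtain ⟨z, hz, rfl⟩ := mk_surj x
  rcases classify (n := n) (N := N) z with h | h | h
  exacts [Or.inl ⟨z, hz, rfl, h⟩, Or.inr (Or.inl ⟨z, hz, rfl, h⟩), Or.inr (Or.inr ⟨z, hz, rfl, h⟩)]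

lemma sV {x y : S n N} (hx : TV x) (h : x * y = y * x) (hne : x ≠ y) : y = x * x := by
  obtain ⟨z, hz, rfl, h1⟩ := hx
  rcases tri y with ⟨z', hz', rfl, h2⟩ | ⟨z', hz', rfl, h2⟩ | ⟨z', hz', rfl, h2⟩
  · exact absurd (by simp only [VV hz hz' h1 h2 (mk_com.mp h)]) hne
  · rw [mk_mul, mk_eq]; exact VK hz h1 h2 (mk_com.mp h)
  · exact absurd (mk_com.mp h) (VJ hz h1 h2)

lemma sKK {x y : S n N} (hx : TK x) (hy : TK y) (h : x * y = y * x) : x = y := by
  obtain ⟨z, hz, rfl, h1⟩ := hx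
  obtain ⟨z', hz', rfl, h2⟩ := hy
  exact mk_eq.mpr (KK h1 h2 (mk_com.mp h))

lemma sJJ {x y : S n N} (hx : TJ x) (hy : TJ y) (h : x * y = y * x) : x = y := by
  obtain ⟨z, hz, rfl, h1⟩ := hx
  obtain ⟨z', hz', rfl, h2⟩ := hy
  exact mk_eq.mpr (JJ h1 h2 (mk_com.mp h))

lemma sJK {x y : S n N} (hx : TJ x) (hy : TK y) (h : x * y = y * x) :
    x.1.1 l0 = y.1.1 l0 ∧ ∃ i, x.1.2 ω0 = inr (i, φ x) ∧ y.1.2 ω0 = inr (i, φ y) ∧
      (χ N (φ x) = 1 ∨ χ N (φ x) = -1) ∧ (φ y = φ x ∨ φ y = φ x + 1 ∨ φ y = φ x - 1) := by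
  obtain ⟨z, hz, rfl, h1⟩ := hx
  obtain ⟨z', hz', rfl, h2⟩ := hy
  obtain ⟨e, i, a, t, e1, e2, e3, e4⟩ := JK h1 h2 (mk_com.mp h)
  have f1 : φ (mk z hz : S n N) = a := by simp [φ, mk, e1, pos]
  have f2 : φ (mk z' hz' : S n N) = t := by simp [φ, mk, e2, pos]
  rw [f1, f2]
  exact ⟨e, i, e1, e2, e3, e4⟩

lemma extJ {x y : S n N} (hx : TJ x) (hy : TJ y) (e1 : x.1.1 l0 = y.1.1 l0)
    (e2 : x.1.2 ω0 = y.1.2 ω0) : x = y := by
  obtain ⟨z, hz, rfl, h1⟩ := hx
  obtain ⟨z', hz', rfl, h2⟩ := hy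
  exact mk_eq.mpr (JJ' h1 h2 e1 e2)

lemma extK {x y : S n N} (hx : TK x) (hy : TK y) (e1 : x.1.1 l0 = y.1.1 l0)
    (e2 : x.1.2 ω0 = y.1.2 ω0) : x = y := by
  obtain ⟨z, hz, rfl, l, ω, h1, h3⟩ := hx
  obtain ⟨z', hz', rfl, l', ω', h2, h4⟩ := hy
  simp only [mk, h1, h2, h3, h4] at e1 e2
  exact mk_eq.mpr ⟨fun s => by rw [h1, h2, e1], fun s => by rw [h3, h4, e2]⟩

lemma odd_eq {a a' : Z N} (h : χ N a = 1 ∨ χ N a = -1) (h' : χ N a' = 1 ∨ χ N a' = -1)
    (e : a = a' ∨ a = a' + 1 ∨ a = a' - 1) : a = a' := by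
  rcases e with e | e | e
  · exact e
  all_goals
    have := congrArg (χ N) e
    simp only [map_add, map_sub, map_one] at this
    rcases h with h | h <;> rcases h' with h' | h' <;> rw [h, h'] at this <;>
      exact absurd this (by decide)

lemma cyc_len {a} (p : (cg (S n N)).Walk a a) (hp : p.IsCycle) : 4 * N + 4 ∣ p.length := by
  have nV : ∀ s, ¬ TV (p.getVert s).1 := by
    intro s hs
    obtain ⟨i, j, h1, h2, h3⟩ := cycle_two _ p hp s
    exact h1 (Subtype.ext ((sV hs h2.2 fun e => h2.1 (Subtype.ext e)).trans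
      (sV hs h3.2 fun e => h3.1 (Subtype.ext e)).symm))
  have KJ : ∀ s, TK (p.getVert s).1 ∨ TJ (p.getVert s).1 := fun s => (tri _).resolve_left (nV s)
  apply cycle_dvd _ (fun x => φ x.1)
    (fun x => TJ x.1 ∨ (TK x.1 ∧ ¬ (χ N (φ x.1) = 1 ∨ χ N (φ x.1) = -1))) p hp
  · intro s
    rcases KJ s with h | h
    · refine Or.inr ⟨h, fun ho => ?_⟩
      obtain ⟨i, j, h1, h2, h3⟩ := cycle_two _ p hp s
      have hi : TJ (p.getVert i).1 :=
        (KJ i).resolve_left fun h' => h2.1 (Subtype.ext (sKK h h' h2.2))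
      have hj : TJ (p.getVert j).1 :=
        (KJ j).resolve_left fun h' => h3.1 (Subtype.ext (sKK h h' h3.2))
      obtain ⟨a1, i1, a2, a3, a4, a5⟩ := sJK hi h h2.2.symm
      obtain ⟨b1, i2, b2, b3, b4, b5⟩ := sJK hj h h3.2.symm
      apply h1
      apply Subtype.ext
      apply extJ hi hj (a1.trans b1.symm)
      rw [a2, b2, ← odd_eq ho a4 a5, ← odd_eq ho b4 b5, ← a3, ← b3]
    · exact Or.inl h
  · rintro x y (hx | ⟨hx, hx'⟩) (hy | ⟨hy, hy'⟩) h
    · exact absurd (Subtype.ext (sJJ hx hy h.2)) h.1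
    · obtain ⟨-, -, -, -, a4, a5⟩ := sJK hx hy h.2
      exact a5.resolve_left fun e => hy' (e ▸ a4)
    · obtain ⟨-, -, -, -, a4, a5⟩ := sJK hy hx h.2.symm
      rcases a5 with e | e | e
      · exact absurd (e ▸ a4) hx'
      · right; rw [e]; ring
      · left; rw [e]; ring
    · exact absurd (Subtype.ext (sKK hx hy h.2)) h.1
  · rintro x y z hx (hy | ⟨hy, -⟩) hz h1 h2 e
    · have hx' : TK x.1 := (hx.resolve_left fun h' => h1.1 (Subtype.ext (sJJ hy h' h1.2))).1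
      have hz' : TK z.1 := (hz.resolve_left fun h' => h2.1 (Subtype.ext (sJJ hy h' h2.2))).1
      obtain ⟨a1, i1, a2, a3, -⟩ := sJK hy hx' h1.2
      obtain ⟨b1, i2, b2, b3, -⟩ := sJK hy hz' h2.2
      apply Subtype.ext
      apply extK hx' hz' (a1.symm.trans b1)
      rw [a2] at b2
      cases b2
      rw [a3, b3, e]
    · have hx' : TJ x.1 := hx.resolve_right fun h' => h1.1 (Subtype.ext (sKK hy h'.1 h1.2))
      have hz' : TJ z.1 := hz.resolve_right fun h' => h2.1 (Subtype.ext (sKK hy h'.1 h2.2))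
      obtain ⟨a1, i1, a2, a3, -⟩ := sJK hx' hy h1.2.symm
      obtain ⟨b1, i2, b2, b3, -⟩ := sJK hz' hy h2.2.symm
      apply Subtype.ext
      apply extJ hx' hz' (a1.trans b1.symm)
      rw [a3] at b3
      cases b3
      rw [a2, b2, e]

/-- track words -/
lemma track (s : ℕ) (i : ℕ) (hi : i + s ≤ n) (hi0 : i < n + 1) : ∃ x : List Γ, ∀ t : Z N,
    R x (inr (⟨i, hi0⟩, t) : Ω n N) = inr (⟨i + s, by omega⟩, t + 4 * (s : Z N)) := by
  induction s with
  | zero => exact ⟨[], fun t => by simp [R]⟩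
  | succ s ih =>
    obtain ⟨x, hx⟩ := ih (by omega)
    refine ⟨x ++ [inl (w (i + s), 1)], fun t => ?_⟩
    rw [R_snoc, hx]
    simp only [rl]
    rw [dif_pos ⟨by omega, trivial⟩]
    simp only [step, inr.injEq, Prod.mk.injEq]
    refine ⟨rfl, ?_⟩
    simp; ring

lemma idle (s : ℕ) (i : ℕ) (hi : i + s ≤ n) (hi0 : i < n + 1) : ∃ x : List Γ, ∀ t : Z N,
    R x (inr (⟨i, hi0⟩, t) : Ω n N) = inr (⟨i + s, by omega⟩, t) := by
  induction s with
  | zero => exact ⟨[], fun t => by simp [R]⟩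
  | succ s ih =>
    obtain ⟨x, hx⟩ := ih (by omega)
    refine ⟨x ++ [inl (w (i + s), 0)], fun t => ?_⟩
    rw [R_snoc, hx]
    simp only [rl]
    rw [dif_pos ⟨by omega, trivial⟩]
    simp only [step, inr.injEq, Prod.mk.injEq]
    exact ⟨rfl, by simp⟩

lemma full {σ b : Z N} (h : Aff σ b) : ∃ x : List Γ, ∀ t : Z N,
    R x (inr (0, t) : Ω (N + 2) N) = inr (Fin.last _, σ * t + b) := by
  obtain ⟨s, hs, rfl⟩ : ∃ s ≤ N, b = 4 * (s : Z N) := by
    have h1 : 4 ∣ b.val := by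
      have := h.2
      rw [χ, ZMod.castHom_apply, ZMod.cast_eq_val, ZMod.natCast_eq_zero_iff] at this
      exact this
    obtain ⟨s, hs⟩ := h1
    have := ZMod.val_lt b
    refine ⟨s, by omega, ?_⟩
    rw [← ZMod.natCast_zmod_val b, hs]; push_cast; rfl
  obtain ⟨x, hx⟩ := track (n := N + 2) (N := N) s 1 (by omega) (by omega)
  obtain ⟨y, hy⟩ := idle (n := N + 2) (N := N) (N + 1 - s) (1 + s) (by omega) (by omega)
  obtain ⟨m, hm⟩ : ∃ m : Fin 3, ∀ t : Z N, step m t = σ * t := by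
    rcases h.1 with rfl | rfl
    · exact ⟨0, by simp [step]⟩
    · exact ⟨2, by simp [step]⟩
  refine ⟨[inl (w 0, m)] ++ x ++ y, fun t => ?_⟩
  have e : R [inl (w 0, m)] (inr (0, t) : Ω (N + 2) N) = inr (⟨1, by omega⟩, σ * t) := by
    simp [R, rl, hm]
  rw [R_append, R_append, e, hx, hy]
  congr 2
  apply Fin.ext
  simp; omega

def l1 : Λ n := ⟨[inr 1], by simp⟩

lemma L_hash (z : List Γ) (s : Λ n) : L n (inr 1 :: z) s = l1 :=
  Subtype.ext (pnorm_first (z := []) okL_F ⟨[], rfl, valid_nil⟩ (not_okL _ _) _)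

lemma elt (t : Z N) : ∃ x : S (N + 2) N, x.1.1 = (fun _ => l1) ∧
    ((¬ (χ N t = 1 ∨ χ N t = -1) ∧ TK x ∧ x.1.2 = fun _ => inr (Fin.last _, t)) ∨
    (TJ x ∧ ∃ σ b, Aff σ b ∧ t = σ + b ∧ x.1.2 = fun ω => inr (Fin.last _, σ * hΩ ω + b))) := by
  have hJ : ∀ σ b : Z N, Aff σ b → t = σ + b → ∃ x : S (N + 2) N, x.1.1 = (fun _ => l1) ∧
      (TJ x ∧ ∃ σ b, Aff σ b ∧ t = σ + b ∧ x.1.2 = fun ω => inr (Fin.last _, σ * hΩ ω + b)) := by
    intro σ b h e
    obtain ⟨x, hx⟩ := full h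
    have hR : ∀ ω : Ω (N + 2) N, R (inr 1 :: x) ω = inr (Fin.last _, σ * hΩ ω + b) := by
      intro ω
      rw [← hx]; simp [R, rl]
    exact ⟨mk (inr 1 :: x) (by simp), funext (L_hash _), ⟨_, _, rfl, [], _, σ, b, h,
      fun s => by rw [L_hash]; rfl, hR⟩, σ, b, h, e, funext hR⟩
  have hK : ∀ (c : Fin 3) (b : Z N), c ≠ 1 → Aff 1 b → t = (if c = 0 then 0 else 2) + b →
      ∃ x : S (N + 2) N, x.1.1 = (fun _ => l1) ∧ TK x ∧ x.1.2 = fun _ => inr (Fin.last _, t) := by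
    intro c b hc h e
    obtain ⟨x, hx⟩ := full h
    have hR : ∀ ω : Ω (N + 2) N, R (inr 1 :: inr c :: x) ω = inr (Fin.last _, t) := by
      intro ω
      rw [e, ← one_mul (if c = 0 then (0 : Z N) else 2), ← hx]; simp [R, rl, hc]
    exact ⟨mk (inr 1 :: inr c :: x) (by simp), funext (L_hash _), ⟨_, _, rfl, _, _,
      L_hash _, hR⟩, funext hR⟩
  have : ∀ x : ZMod 4, x = 0 ∨ x = 1 ∨ x = 2 ∨ x = -1 := by decide
  rcases this (χ N t) with h | h | h | h
  · obtain ⟨x, h1, h2⟩ := hK 0 t (by decide) ⟨Or.inl rfl, h⟩ (by simp)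
    exact ⟨x, h1, Or.inl ⟨by rw [h]; decide, h2⟩⟩
  · obtain ⟨x, h1, h2⟩ := hJ 1 (t - 1) ⟨Or.inl rfl, by simp [h]⟩ (by simp)
    exact ⟨x, h1, Or.inr h2⟩
  · obtain ⟨x, h1, h2⟩ := hK 2 (t - 2) (by decide) ⟨Or.inl rfl, by simp [h, χ2]⟩ (by simp)
    exact ⟨x, h1, Or.inl ⟨by rw [h]; decide, h2⟩⟩
  · obtain ⟨x, h1, h2⟩ := hJ (-1) (t + 1) ⟨Or.inr rfl, by simp [h]⟩ (by simp)
    exact ⟨x, h1, Or.inr h2⟩

lemma not_acyclic : ¬ (cg (S (N + 2) N)).IsAcyclic := by
  choose e h1 h2 using elt (N := N)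
  have hφ : ∀ t, φ (e t) = t := by
    intro t
    rcases h2 t with ⟨-, -, h⟩ | ⟨-, σ, b, -, h, h'⟩
    · simp [φ, h, pos]
    · simp [φ, h', pos, ω0, hΩ, ← h]
  have odd : ∀ {σ b : Z N}, Aff σ b → (χ N (σ + b) = 1 ∨ χ N (σ + b) = -1) := by
    rintro σ b ⟨rfl | rfl, h⟩ <;> simp [h]
  have ne1 : ∀ t : Z N, ∀ c : ZMod 4, c ≠ 0 → ∀ d, χ N d = c → t ≠ t + d := by
    intro t c hc d hd h
    have : d = 0 := by simpa using h
    rw [this, map_zero] at hd
    exact hc hd.symm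
  have nc : ∀ t, ¬ ∀ y, e t * y = y * e t := by
    intro t h
    apply ne1 t 2 (by decide) 2 (χ2 N)
    suffices hs : e t = e (t + 2) by
      have := congrArg φ hs
      rwa [hφ, hφ] at this
    have key : ∀ x : ZMod 4, (x = 1 ∨ x = -1) ↔ (x + 2 = 1 ∨ x + 2 = -1) := by decide
    rcases h2 t with ⟨a1, a2, -⟩ | ⟨a2, σ, b, a3, a4, -⟩ <;>
      rcases h2 (t + 2) with ⟨b1, b2, -⟩ | ⟨b2, σ', b', b3, b4, -⟩
    · exact sKK a2 b2 (h _)
    · have := odd b3
      rw [← b4, map_add, χ2, ← key] at this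
      exact absurd this a1
    · have := odd a3
      rw [← a4, key, ← χ2 N, ← map_add] at this
      exact absurd this b1
    · exact sJJ a2 b2 (h _)
  have fix : ∀ {σ b t : Z N}, Aff σ b → (t = σ + b + 1 ∨ t + 1 = σ + b) → σ * hh t + b = t := by
    intro σ b t h h'
    have : t = σ * 0 + b ∨ t = σ * 2 + b := by
      rcases h.1 with rfl | rfl <;> rcases h' with h' | h'
      · right; linear_combination h'
      · left; linear_combination h'
      · left; linear_combination h'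
      · right; linear_combination h'
    rcases this with rfl | rfl <;> rw [hh_aff h]
    · rw [hh_0]
    · rw [hh_2]
  have com : ∀ t, e t * e (t + 1) = e (t + 1) * e t := by
    intro t
    have key : ∀ x : ZMod 4, (x = 1 ∨ x = -1) ↔ ¬ (x + 1 = 1 ∨ x + 1 = -1) := by decide
    apply Subtype.ext
    change ((e t).1.1 ∘ (e (t + 1)).1.1, (e (t + 1)).1.2 ∘ (e t).1.2) =
      ((e (t + 1)).1.1 ∘ (e t).1.1, (e t).1.2 ∘ (e (t + 1)).1.2)
    rw [h1, h1]
    congr 1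
    funext ω
    rcases h2 t with ⟨a1, -, a2⟩ | ⟨-, σ, b, a3, a4, a2⟩ <;>
      rcases h2 (t + 1) with ⟨b1, -, b2⟩ | ⟨-, σ', b', b3, b4, b2⟩
    · rw [map_add, map_one, ← key] at b1
      rw [key] at a1
      exact absurd b1 (by rwa [key])
    · simp only [a2, b2, Function.comp, hΩ, fix b3 (Or.inr b4)]
    · simp only [a2, b2, Function.comp, hΩ, fix (t := t + 1) a3 (Or.inl (by rw [← a4]))]
    · have c1 := odd a3
      have c2 := odd b3
      rw [← a4, key] at c1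
      rw [← b4, map_add, map_one] at c2
      exact absurd c2 c1
  have adj : ∀ t, (cg (S (N + 2) N)).Adj ⟨e t, nc t⟩ ⟨e (t + 1), nc _⟩ := by
    intro t
    refine ⟨fun h => ne1 t 1 (by decide) 1 (map_one _) ?_, com t⟩
    have := congrArg (fun x => φ x.1) h
    simpa [hφ] using this
  intro hac
  let f : SimpleGraph.cycleGraph (4 * N + 1 + 3) →g cg (S (N + 2) N) :=
    ⟨fun t => ⟨e t, nc t⟩, by
      intro a b hab
      rw [SimpleGraph.cycleGraph_adj] at hab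
      rcases hab with h | h
      · have : a = b + 1 := by rw [← h]; abel
        subst this
        exact (adj b).symm
      · have : b = a + 1 := by rw [← h]; abel
        subst this
        exact adj a⟩
  have hf : Function.Injective f := by
    intro a b h
    exact (hφ a).symm.trans ((congrArg (fun x => φ x.1) h).trans (hφ b))
  exact hac.comap f hf _ SimpleGraph.cycleGraph.isCycle_cycle

lemma girth_ge : N ≤ (cg (S (N + 2) N)).girth := by
  obtain ⟨a, p, hp, e⟩ := SimpleGraph.exists_girth_eq_length.mpr (not_acyclic (N := N))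
  have := Nat.le_of_dvd (by have := hp.three_le_length; omega) (cyc_len p hp)
  omega

end Pool.Agent.H.MP_eff4ce_al
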